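import Mathlib

/-!
# The functor `SP^n` has many extensions to the Kleisli category of the monad of max-min measures

Let `θ_c(μ)(φ) = μ(φ - c) + c`; in terms of weights, `θ_c(⋁ αᵢ ∧ δ_{xᵢ}) = ⋁ (αᵢ + c) ∧ δ_{xᵢ}`.
This is an automorphism of the monad `J_ω`. So the composition with `θ_c` is an automorphism `Θ_c` of
the Kleisli category, which restricts to the identity on `UMET`. If `F` is an extension of `SP^n`,
then so is `Θ_c ∘ F`. We apply this to the standard extension, given by the product of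
measures, and find a different extension for each real number `c`, for every `n ≥ 1`, and more
generally for `SP^n_G`.

The proofs use the level sets `Lev μ t = {xᵢ | t ≤ αᵢ}` of `μ = ⋁ αᵢ ∧ δ_{xᵢ}`.
-/

open Set Topology CategoryTheory

noncomputable section

namespace Pool.Agent.Results.MP_6cdbe4_gt.ManyExtensions

/-! ### Definitions -/

/-- Ultrametric spaces. -/
structure UMet where
  carrier : Type
  [metric : MetricSpace carrier]
  [ultra : IsUltrametricDist carrier]

instance : CoeSort UMet Type := ⟨UMet.carrier⟩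

attribute [instance] UMet.metric UMet.ultra

/-- The category of ultrametric spaces and nonexpanding maps. -/
instance : Category UMet where
  Hom X Y := {f : X → Y // ∀ x x', dist (f x) (f x') ≤ dist x x'}
  id X := ⟨fun x => x, fun _ _ => le_rfl⟩
  comp f g := ⟨fun x => g.1 (f.1 x), fun x x' => (g.2 _ _).trans (f.2 _ _)⟩

/-- `J_ω(X)`: the functionals on `C(X)` of the form `φ ↦ max_i min(α_i, φ(x_i))`, with
`max_i α_i = ∞`. -/
@[ext] structure J (X : UMet) where
  toFun : C(X, ℝ) → ℝ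
  exists_rep : ∃ (k : ℕ) (α : Fin k → EReal) (x : Fin k → X), (∃ i, α i = ⊤) ∧
    ∀ φ : C(X, ℝ), (toFun φ : EReal) = ⨆ i, min (α i) (φ (x i) : EReal)

/-- `μ = ν` on the functions which are constant on the open balls of radius `r`. -/
def Close {X : UMet} (r : ℝ) (μ ν : J X) : Prop :=
  ∀ φ : C(X, ℝ), (∀ x y, dist x y < r → φ x = φ y) → μ.toFun φ = ν.toFun φ

/-- The ultrametric on `J_ω(X)`. -/
def dhat {X : UMet} (μ ν : J X) : ℝ := sInf {r | 0 < r ∧ Close r μ ν}

/-- The measure `⋁ α_i ∧ δ_{x_i}`, for a finite family. -/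
lemma exists_rep_of_finite {X : UMet} {ι : Type} [Finite ι] {F : C(X, ℝ) → ℝ} (α : ι → EReal)
    (x : ι → X) (h : ∃ i, α i = ⊤)
    (hF : ∀ (φ : C(X, ℝ)) (t : ℝ), t ≤ F φ ↔ ∃ i, (t : EReal) ≤ α i ∧ t ≤ φ (x i)) :
    ∃ (k : ℕ) (α : Fin k → EReal) (x : Fin k → X), (∃ i, α i = ⊤) ∧
      ∀ φ : C(X, ℝ), (F φ : EReal) = ⨆ i, min (α i) (φ (x i) : EReal) := by
  obtain ⟨k, ⟨e⟩⟩ := Finite.exists_equiv_fin ι
  refine ⟨k, α ∘ e.symm, x ∘ e.symm, ?_, fun φ => ?_⟩
  · obtain ⟨i, hi⟩ := h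
    exact ⟨e i, by simpa using hi⟩
  · refine le_antisymm ?_ (iSup_le fun i => ?_)
    · obtain ⟨i, h1, h2⟩ := (hF φ (F φ)).1 le_rfl
      refine le_iSup_of_le (e i) ?_
      simp only [Function.comp_apply, Equiv.symm_apply_apply]
      exact le_min h1 (EReal.coe_le_coe_iff.2 h2)
    · simp only [Function.comp_apply]
      rcases le_total (α (e.symm i)) (φ (x (e.symm i)) : EReal) with h1 | h1
      · rw [min_eq_left h1]
        induction hα : α (e.symm i) using EReal.rec with
        | bot => exact bot_le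
        | coe s =>
          rw [EReal.coe_le_coe_iff, hF]
          rw [hα] at h1
          exact ⟨e.symm i, hα.ge, EReal.coe_le_coe_iff.1 h1⟩
        | top =>
          rw [hα] at h1
          exact absurd h1 (by simp)
      · rw [min_eq_right h1, EReal.coe_le_coe_iff, hF]
        exact ⟨e.symm i, h1, le_rfl⟩

/-- The level characterisation of a representation. -/
lemma le_iff_of_rep {X : UMet} {ι : Type} [Finite ι] {F : C(X, ℝ) → ℝ} {α : ι → EReal}
    {x : ι → X} (h : ∃ i, α i = ⊤)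
    (hF : ∀ φ : C(X, ℝ), (F φ : EReal) = ⨆ i, min (α i) (φ (x i) : EReal))
    (φ : C(X, ℝ)) (t : ℝ) : t ≤ F φ ↔ ∃ i, (t : EReal) ≤ α i ∧ t ≤ φ (x i) := by
  have : Nonempty ι := ⟨h.choose⟩
  obtain ⟨i, hi⟩ := exists_eq_ciSup_of_finite (f := fun i => min (α i) (φ (x i) : EReal))
  rw [← EReal.coe_le_coe_iff, hF]
  constructor
  · intro h
    rw [← hi] at h
    exact ⟨i, h.trans (min_le_left _ _), EReal.coe_le_coe_iff.1 (h.trans (min_le_right _ _))⟩
  · rintro ⟨j, h1, h2⟩
    exact le_iSup_of_le j (le_min h1 (EReal.coe_le_coe_iff.2 h2))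

/-! ### Level sets -/

variable {X Y Z : UMet}

/-- The level set `{x_i | t ≤ α_i}` of `⋁ α_i ∧ δ_{x_i}`. -/
def Lev (μ : J X) (t : ℝ) : Set X := {x | ∀ φ : C(X, ℝ), t ≤ φ x → t ≤ μ.toFun φ}

lemma continuous_of_const {r : ℝ} (hr : 0 < r) {φ : X → ℝ}
    (h : ∀ x y, dist x y < r → φ x = φ y) : Continuous φ := by
  rw [continuous_iff_continuousAt]
  intro x
  refine ContinuousAt.congr (f := fun _ => φ x) continuousAt_const ?_
  filter_upwards [Metric.ball_mem_nhds x hr] with y hy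
  exact h x y (by rwa [dist_comm])

/-- The function `t` on the ball, `t - 1` elsewhere. -/
lemma exists_bump (x : X) {r : ℝ} (hr : 0 < r) (t : ℝ) : ∃ φ : C(X, ℝ),
    (∀ y z, dist y z < r → φ y = φ z) ∧ ∀ y, t ≤ φ y ↔ dist x y < r := by
  classical
  let φ : X → ℝ := fun y => if dist x y < r then t else t - 1
  have h : ∀ y z, dist y z < r → φ y = φ z := by
    intro y z hyz
    have h1 : dist x y < r ↔ dist x z < r := by
      constructor
      · intro h
        exact (dist_triangle_max x y z).trans_lt (max_lt h hyz)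
      · intro h
        exact (dist_triangle_max x z y).trans_lt (max_lt h (by rwa [dist_comm]))
    simp only [φ, h1]
  refine ⟨⟨φ, continuous_of_const hr h⟩, h, fun y => ?_⟩
  show t ≤ φ y ↔ _
  simp only [φ]
  split_ifs with h1
  · exact ⟨fun _ => h1, fun _ => le_rfl⟩
  · exact ⟨fun h2 => absurd h2 (by linarith), fun h2 => absurd h2 h1⟩

lemma lev_eq_of {μ : J X} {t : ℝ} {S : Set X} (hS : S.Finite)
    (h : ∀ φ : C(X, ℝ), t ≤ μ.toFun φ ↔ ∃ x ∈ S, t ≤ φ x) : Lev μ t = S := by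
  ext x
  constructor
  · intro hx
    by_contra hxS
    obtain ⟨r, hr, hball⟩ := Metric.isOpen_iff.1 hS.isClosed.isOpen_compl x hxS
    obtain ⟨φ, -, hφ⟩ := exists_bump x hr t
    have h1 : t ≤ φ x := (hφ x).2 (by rwa [dist_self])
    obtain ⟨y, hy, hty⟩ := (h φ).1 (hx φ h1)
    exact hball (by rw [Metric.mem_ball, dist_comm]; exact (hφ y).1 hty) hy
  · intro hx φ hφ
    exact (h φ).2 ⟨x, hx, hφ⟩

lemma lev_rep {ι : Type} [Finite ι] {μ : J X} {α : ι → EReal} {x : ι → X} (h : ∃ i, α i = ⊤)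
    (hF : ∀ φ : C(X, ℝ), (μ.toFun φ : EReal) = ⨆ i, min (α i) (φ (x i) : EReal)) (t : ℝ) :
    Lev μ t = {y | ∃ i, (t : EReal) ≤ α i ∧ x i = y} := by
  refine lev_eq_of ((finite_range x).subset ?_) fun φ => ?_
  · rintro _ ⟨i, -, rfl⟩
    exact mem_range_self i
  · rw [le_iff_of_rep h hF]
    constructor
    · rintro ⟨i, h1, h2⟩
      exact ⟨x i, ⟨i, h1, rfl⟩, h2⟩
    · rintro ⟨_, ⟨i, h1, rfl⟩, h2⟩
      exact ⟨i, h1, h2⟩

lemma le_iff (μ : J X) (φ : C(X, ℝ)) (t : ℝ) : t ≤ μ.toFun φ ↔ ∃ x ∈ Lev μ t, t ≤ φ x := by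
  obtain ⟨k, α, x, h, hF⟩ := μ.exists_rep
  rw [lev_rep h hF, le_iff_of_rep h hF]
  constructor
  · rintro ⟨i, h1, h2⟩
    exact ⟨x i, ⟨i, h1, rfl⟩, h2⟩
  · rintro ⟨_, ⟨i, h1, rfl⟩, h2⟩
    exact ⟨i, h1, h2⟩

/-- All level sets are contained in a finite set. -/
lemma exists_finite (μ : J X) : ∃ S : Set X, S.Finite ∧ ∀ t, Lev μ t ⊆ S := by
  obtain ⟨k, α, x, h, hF⟩ := μ.exists_rep
  refine ⟨range x, finite_range x, fun t => ?_⟩
  rw [lev_rep h hF]
  rintro _ ⟨i, -, rfl⟩
  exact mem_range_self i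

lemma lev_finite (μ : J X) (t : ℝ) : (Lev μ t).Finite := by
  obtain ⟨S, hS, h⟩ := exists_finite μ
  exact hS.subset (h t)

lemma lev_nonempty (μ : J X) : ∃ x, ∀ t, x ∈ Lev μ t := by
  obtain ⟨k, α, x, ⟨i, hi⟩, hF⟩ := μ.exists_rep
  refine ⟨x i, fun t => ?_⟩
  rw [lev_rep ⟨i, hi⟩ hF]
  exact ⟨i, by rw [hi]; exact le_top, rfl⟩

lemma lev_anti (μ : J X) {s t : ℝ} (h : s ≤ t) : Lev μ t ⊆ Lev μ s := by
  obtain ⟨k, α, x, h', hF⟩ := μ.exists_rep
  rw [lev_rep h' hF, lev_rep h' hF]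
  rintro _ ⟨i, h1, rfl⟩
  exact ⟨i, (EReal.coe_le_coe_iff.2 h).trans h1, rfl⟩

lemma J_ext {μ ν : J X} (h : ∀ t, Lev μ t = Lev ν t) : μ = ν := by
  ext φ
  refine le_antisymm ?_ ?_
  · rw [le_iff, ← h, ← le_iff]
  · rw [le_iff, h, ← le_iff]

lemma close_iff {r : ℝ} (hr : 0 < r) {μ ν : J X} : Close r μ ν ↔
    ∀ t, (∀ x ∈ Lev μ t, ∃ y ∈ Lev ν t, dist x y < r) ∧
      (∀ y ∈ Lev ν t, ∃ x ∈ Lev μ t, dist y x < r) := by
  constructor
  · intro h t
    constructor
    · intro x hx
      obtain ⟨φ, h1, h2⟩ := exists_bump x hr t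
      have h3 : t ≤ μ.toFun φ := hx φ ((h2 x).2 (by rwa [dist_self]))
      rw [h φ h1, le_iff] at h3
      obtain ⟨y, hy, hty⟩ := h3
      exact ⟨y, hy, (h2 y).1 hty⟩
    · intro x hx
      obtain ⟨φ, h1, h2⟩ := exists_bump x hr t
      have h3 : t ≤ ν.toFun φ := hx φ ((h2 x).2 (by rwa [dist_self]))
      rw [← h φ h1, le_iff] at h3
      obtain ⟨y, hy, hty⟩ := h3
      exact ⟨y, hy, (h2 y).1 hty⟩
  · intro h φ hφ
    refine le_antisymm ?_ ?_
    · obtain ⟨x, hx, hx'⟩ := (le_iff μ φ _).1 le_rfl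
      obtain ⟨y, hy, hxy⟩ := (h _).1 x hx
      exact (le_iff ν φ _).2 ⟨y, hy, by rwa [← hφ x y hxy]⟩
    · obtain ⟨x, hx, hx'⟩ := (le_iff ν φ _).1 le_rfl
      obtain ⟨y, hy, hxy⟩ := (h _).2 x hx
      exact (le_iff μ φ _).2 ⟨y, hy, by rwa [← hφ x y hxy]⟩

lemma Close.mono {r s : ℝ} (h : r ≤ s) {μ ν : J X} (hc : Close r μ ν) : Close s μ ν :=
  fun φ hφ => hc φ fun x y hxy => hφ x y (hxy.trans_le h)

lemma exists_close (μ ν : J X) : ∃ r, 0 < r ∧ Close r μ ν := by
  obtain ⟨S, hS, h⟩ := exists_finite μ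
  obtain ⟨S', hS', h'⟩ := exists_finite ν
  obtain ⟨R, hR⟩ := Metric.isBounded_iff.1 (hS.union hS').isBounded
  refine ⟨max R 0 + 1, by positivity, (close_iff (by positivity)).2 fun t => ⟨?_, ?_⟩⟩
  · intro x hx
    obtain ⟨y, hy⟩ := lev_nonempty ν
    refine ⟨y, hy t, (hR (Or.inl (h t hx)) (Or.inr (h' t (hy t)))).trans_lt ?_⟩
    have := le_max_left R 0
    linarith
  · intro x hx
    obtain ⟨y, hy⟩ := lev_nonempty μ
    refine ⟨y, hy t, (hR (Or.inr (h' t hx)) (Or.inl (h t (hy t)))).trans_lt ?_⟩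
    have := le_max_left R 0
    linarith

lemma dhat_le_iff {μ ν : J X} {d : ℝ} (hd : 0 ≤ d) :
    dhat μ ν ≤ d ↔ ∀ r, d < r → Close r μ ν := by
  constructor
  · intro h r hr
    obtain ⟨s, hs, hsr⟩ := exists_lt_of_csInf_lt (exists_close μ ν) (h.trans_lt hr)
    exact hs.2.mono hsr.le
  · intro h
    refine le_of_forall_pos_le_add fun ε hε => ?_
    exact csInf_le ⟨0, fun r hr => hr.1.le⟩ ⟨by linarith, h _ (by linarith)⟩

/-- Nonexpanding maps to `J_ω(Y)`, by level sets. -/
lemma nonexp_iff {f : X → J Y} : (∀ x x', dhat (f x) (f x') ≤ dist x x') ↔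
    ∀ x x' r, dist x x' < r → ∀ t, ∀ y ∈ Lev (f x) t, ∃ y' ∈ Lev (f x') t, dist y y' < r := by
  constructor
  · intro h x x' r hr t
    have hr0 : 0 < r := dist_nonneg.trans_lt hr
    exact ((close_iff hr0).1 ((dhat_le_iff dist_nonneg).1 (h x x') r hr) t).1
  · intro h x x'
    rw [dhat_le_iff dist_nonneg]
    intro r hr
    have hr0 : 0 < r := dist_nonneg.trans_lt hr
    exact (close_iff hr0).2 fun t => ⟨h x x' r hr t, h x' x r (by rwa [dist_comm]) t⟩

/-- Evaluation at `φ` is continuous on `J_ω(Y)`. -/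
lemma continuous_eval {f : X → J Y} (hf : ∀ x x', dhat (f x) (f x') ≤ dist x x') (φ : C(Y, ℝ)) :
    Continuous fun x => (f x).toFun φ := by
  rw [nonexp_iff] at hf
  rw [Metric.continuous_iff]
  intro x₀ ε hε
  obtain ⟨S, hS, hSl⟩ := exists_finite (f x₀)
  have h1 : ∀ᶠ r in 𝓝[>] (0 : ℝ), ∀ y ∈ S, ∀ z, dist y z < r → |φ y - φ z| < ε := by
    refine (Filter.eventually_all_finite hS).2 fun y _ => ?_
    obtain ⟨δ, hδ, h⟩ := Metric.continuous_iff.1 φ.continuous y ε hε
    filter_upwards [Ioo_mem_nhdsGT hδ] with r hr z hz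
    have := h z (by rw [dist_comm]; exact hz.trans hr.2)
    rwa [Real.dist_eq, abs_sub_comm] at this
  obtain ⟨r, hr, hr0⟩ := (h1.and self_mem_nhdsWithin).exists
  have hr0' : 0 < r := hr0
  refine ⟨r, hr0', fun x hx => ?_⟩
  have key : ε ≤ |(f x).toFun φ - (f x₀).toFun φ| → False := by
    intro hcon
    rcases le_total ((f x).toFun φ) ((f x₀).toFun φ) with h2 | h2
    · rw [abs_of_nonpos (by linarith)] at hcon
      obtain ⟨y, hy, hty⟩ := (le_iff (f x₀) φ _).1 le_rfl
      obtain ⟨z, hz, hyz⟩ := hf x₀ x r (by rwa [dist_comm]) _ y hy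
      have h3 := abs_lt.1 (hr y (hSl _ hy) z hyz)
      -- the measure `f x` at `z`
      have h4 : min ((f x₀).toFun φ) (φ z) ≤ (f x).toFun φ :=
        (le_iff (f x) φ _).2 ⟨z, lev_anti _ (min_le_left _ _) hz, min_le_right _ _⟩
      rcases min_le_iff.1 h4 with h5 | h5 <;> linarith
    · rw [abs_of_nonneg (by linarith)] at hcon
      obtain ⟨z, hz, htz⟩ := (le_iff (f x) φ _).1 le_rfl
      obtain ⟨y, hy, hyz⟩ := hf x x₀ r hx _ z hz
      have h3 := abs_lt.1 (hr y (hSl _ hy) z (by rwa [dist_comm]))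
      have h4 : min ((f x).toFun φ) (φ y) ≤ (f x₀).toFun φ :=
        (le_iff (f x₀) φ _).2 ⟨y, lev_anti _ (min_le_left _ _) hy, min_le_right _ _⟩
      rcases min_le_iff.1 h4 with h5 | h5 <;> linarith
  rw [Real.dist_eq]
  by_contra hcon
  exact key (not_lt.1 hcon)

/-! ### The Kleisli category -/

/-- The unit `δ_x`. -/
def dirac (x : X) : J X where
  toFun φ := φ x
  exists_rep := ⟨1, fun _ => ⊤, fun _ => x, ⟨0, rfl⟩, fun φ => by simp⟩

lemma lev_dirac (x : X) (t : ℝ) : Lev (dirac x) t = {x} :=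
  lev_eq_of (finite_singleton x) fun φ => by simp [dirac]

/-- The Kleisli extension `ξ ∘ J_ω(g)` of `g : Y → J_ω(Z)`:
`ξ(J_ω(g)(μ))(φ) = J_ω(g)(μ)(φ̄) = μ(φ̄ ∘ g)`, where `(φ̄ ∘ g)(y) = g(y)(φ)`. -/
def bind (μ : J Y) (g : Y → J Z) (hg : ∀ y y', dhat (g y) (g y') ≤ dist y y') : J Z where
  toFun φ := μ.toFun ⟨fun y => (g y).toFun φ, continuous_eval hg φ⟩
  exists_rep := by
    obtain ⟨k, α, y, ⟨i₀, hi₀⟩, hμ⟩ := μ.exists_rep
    choose l β z hβ hg' using fun i => (g (y i)).exists_rep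
    refine exists_rep_of_finite (ι := Σ i : Fin k, Fin (l i)) (fun p => min (α p.1) (β p.1 p.2))
      (fun p => z p.1 p.2) ?_ ?_
    · obtain ⟨j, hj⟩ := hβ i₀
      exact ⟨⟨i₀, j⟩, by simp [hi₀, hj]⟩
    · intro φ t
      rw [le_iff_of_rep ⟨i₀, hi₀⟩ hμ]
      constructor
      · rintro ⟨i, h1, h2⟩
        obtain ⟨j, h3, h4⟩ := (le_iff_of_rep (hβ i) (hg' i) φ t).1 h2
        exact ⟨⟨i, j⟩, le_min h1 h3, h4⟩
      · rintro ⟨⟨i, j⟩, h1, h2⟩
        exact ⟨i, h1.trans (min_le_left _ _),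
          (le_iff_of_rep (hβ i) (hg' i) φ t).2 ⟨j, h1.trans (min_le_right _ _), h2⟩⟩

lemma lev_bind (μ : J Y) (g : Y → J Z) (hg : ∀ y y', dhat (g y) (g y') ≤ dist y y') (t : ℝ) :
    Lev (bind μ g hg) t = {z | ∃ y ∈ Lev μ t, z ∈ Lev (g y) t} := by
  refine lev_eq_of ?_ fun φ => ?_
  · refine ((lev_finite μ t).biUnion fun y _ => lev_finite (g y) t).subset ?_
    rintro z ⟨y, hy, hz⟩
    exact mem_biUnion hy hz
  · show t ≤ μ.toFun _ ↔ _
    rw [le_iff]
    constructor
    · rintro ⟨y, hy, h⟩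
      obtain ⟨z, hz, hz'⟩ := (le_iff (g y) φ t).1 h
      exact ⟨z, ⟨y, hy, hz⟩, hz'⟩
    · rintro ⟨z, ⟨y, hy, hz⟩, hz'⟩
      exact ⟨y, hy, (le_iff (g y) φ t).2 ⟨z, hz, hz'⟩⟩

lemma bind_nonexp {f : X → J Y} (hf : ∀ x x', dhat (f x) (f x') ≤ dist x x') {g : Y → J Z}
    (hg : ∀ y y', dhat (g y) (g y') ≤ dist y y') (x x' : X) :
    dhat (bind (f x) g hg) (bind (f x') g hg) ≤ dist x x' := by
  revert x x'
  have hg' := hg
  rw [nonexp_iff] at hf hg' ⊢
  intro x x' r hr t z hz
  rw [lev_bind] at hz ⊢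
  obtain ⟨y, hy, hz⟩ := hz
  obtain ⟨y', hy', hyy'⟩ := hf x x' r hr t y hy
  obtain ⟨z', hz', hzz'⟩ := hg' y y' r hyy' t z hz
  exact ⟨z', ⟨y', hy', hz'⟩, hzz'⟩

lemma dirac_nonexp {f : X → Y} (hf : ∀ x x', dist (f x) (f x') ≤ dist x x') (x x' : X) :
    dhat (dirac (f x)) (dirac (f x')) ≤ dist x x' := by
  revert x x'
  rw [nonexp_iff]
  intro x x' r hr t y hy
  rw [lev_dirac] at hy ⊢
  refine ⟨f x', rfl, ?_⟩
  rw [mem_singleton_iff.1 hy]
  exact (hf x x').trans_lt hr

/-- The objects of the Kleisli category. -/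
structure Kl where
  of : UMet

/-- The Kleisli category of the monad of max-min measures: the morphisms `X → Y` are the
nonexpanding maps `X → J_ω(Y)`, and the composition is `ξ ∘ J_ω(g) ∘ f`. -/
instance : Category Kl where
  Hom X Y := {f : X.of → J Y.of // ∀ x x', dhat (f x) (f x') ≤ dist x x'}
  id X := ⟨dirac, dirac_nonexp (f := fun x => x) fun _ _ => le_rfl⟩
  comp f g := ⟨fun x => bind (f.1 x) g.1 g.2, bind_nonexp f.2 g.2⟩

/-- The functor `Φ`. -/
def Phi : UMet ⥤ Kl where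
  obj X := ⟨X⟩
  map f := ⟨fun x => dirac (f.1 x), dirac_nonexp f.2⟩

/-! ### The symmetric powers -/

section SP

variable {n : ℕ} (G : Subgroup (Equiv.Perm (Fin n)))

/-- The orbits of `G` on `Xⁿ`. -/
def orbit (X : UMet) : Setoid (Fin n → X) where
  r x y := ∃ σ ∈ G, x = y ∘ σ
  iseqv :=
    { refl := fun x => ⟨1, G.one_mem, rfl⟩
      symm := fun {x y} h => by
        obtain ⟨σ, hσ, rfl⟩ := h
        exact ⟨σ⁻¹, G.inv_mem hσ, by ext i; simp⟩
      trans := fun {x y z} h h' => by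
        obtain ⟨σ, hσ, rfl⟩ := h
        obtain ⟨τ, hτ, rfl⟩ := h'
        exact ⟨τ * σ, G.mul_mem hτ hσ, rfl⟩ }

lemma dist_comp (x y : Fin n → X) (σ : Equiv.Perm (Fin n)) : dist (x ∘ σ) (y ∘ σ) = dist x y := by
  refine le_antisymm ?_ ?_
  · exact (dist_pi_le_iff dist_nonneg).2 fun i => dist_le_pi_dist x y (σ i)
  · refine (dist_pi_le_iff dist_nonneg).2 fun i => ?_
    have := dist_le_pi_dist (x ∘ σ) (y ∘ σ) (σ⁻¹ i)
    simpa using this

/-- The distance `min_σ max_i d(x_i, y_{σ(i)})`. -/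
def spDist (x y : Fin n → X) : ℝ := ⨅ σ : G, dist x (y ∘ σ.1)

lemma exists_spDist (x y : Fin n → X) : ∃ σ ∈ G, dist x (y ∘ σ) = spDist G x y := by
  obtain ⟨σ, hσ⟩ := exists_eq_ciInf_of_finite (f := fun σ : G => dist x (y ∘ σ.1))
  exact ⟨σ.1, σ.2, hσ⟩

lemma spDist_le (x y : Fin n → X) {σ : Equiv.Perm (Fin n)} (hσ : σ ∈ G) :
    spDist G x y ≤ dist x (y ∘ σ) :=
  ciInf_le (finite_range (fun σ : G => dist x (y ∘ σ.1))).bddBelow (⟨σ, hσ⟩ : G)

lemma spDist_nonneg (x y : Fin n → X) : 0 ≤ spDist G x y := by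
  obtain ⟨σ, -, h⟩ := exists_spDist G x y
  rw [← h]
  exact dist_nonneg

lemma spDist_triangle (x y z : Fin n → X) :
    spDist G x z ≤ max (spDist G x y) (spDist G y z) := by
  obtain ⟨σ, hσ, h1⟩ := exists_spDist G x y
  obtain ⟨τ, hτ, h2⟩ := exists_spDist G y z
  refine (spDist_le G x z (G.mul_mem hτ hσ)).trans ?_
  rw [← h1, ← h2, ← dist_comp y (z ∘ τ) σ]
  exact dist_triangle_max _ _ _

lemma spDist_comm (x y : Fin n → X) : spDist G x y = spDist G y x := by
  have h : ∀ x y : Fin n → X, spDist G x y ≤ spDist G y x := by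
    intro x y
    obtain ⟨σ, hσ, h1⟩ := exists_spDist G y x
    refine (spDist_le G x y (G.inv_mem hσ)).trans ?_
    rw [← h1, ← dist_comp x (y ∘ _) σ, dist_comm]
    apply le_of_eq
    congr 1
    ext i
    simp
  exact le_antisymm (h x y) (h y x)

lemma spDist_eq_zero {x y : Fin n → X} : spDist G x y = 0 ↔ (orbit G X).r x y := by
  constructor
  · intro h
    obtain ⟨σ, hσ, h1⟩ := exists_spDist G x y
    exact ⟨σ, hσ, eq_of_dist_eq_zero (h1.trans h)⟩
  · rintro ⟨σ, hσ, h⟩
    refine le_antisymm ((spDist_le G x y hσ).trans ?_) (spDist_nonneg G x y)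
    rw [h, dist_self]

lemma spDist_congr {x x' y y' : Fin n → X} (h : (orbit G X).r x x') (h' : (orbit G X).r y y') :
    spDist G x y = spDist G x' y' := by
  have key : ∀ {x x' y y' : Fin n → X}, (orbit G X).r x x' → (orbit G X).r y y' →
      spDist G x y ≤ spDist G x' y' := by
    intro x x' y y' h h'
    have h1 := spDist_eq_zero G |>.2 h
    have h2 := spDist_eq_zero G |>.2 h'
    have h3 := spDist_triangle G x x' y
    have h4 := spDist_triangle G x' y' y
    rw [spDist_comm G y' y, h2] at h4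
    rw [h1] at h3
    refine h3.trans (max_le (spDist_nonneg G _ _) (h4.trans (max_le le_rfl (spDist_nonneg G _ _))))
  exact le_antisymm (key h h') (key ((orbit G X).symm h) ((orbit G X).symm h'))

/-- The ultrametric space `SP^n_G(X) = X^n / G`. -/
def SPobj (X : UMet) : Type := Quotient (orbit G X)

variable {G} in
/-- The orbit `[x_1, …, x_n]`. -/
def cls (x : Fin n → X) : SPobj G X := Quotient.mk (orbit G X) x

instance (X : UMet) : MetricSpace (SPobj G X) where
  dist := Quotient.lift₂ (spDist G) fun _ _ _ _ h h' => spDist_congr G h h'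
  dist_self a := by
    induction a using Quotient.inductionOn with
    | h x => exact (spDist_eq_zero G).2 ((orbit G X).refl x)
  dist_comm a b := by
    induction a using Quotient.inductionOn with
    | h x =>
      induction b using Quotient.inductionOn with
      | h y => exact spDist_comm G x y
  dist_triangle a b c := by
    induction a using Quotient.inductionOn with
    | h x =>
      induction b using Quotient.inductionOn with
      | h y =>
        induction c using Quotient.inductionOn with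
        | h z =>
          exact (spDist_triangle G x y z).trans
            (max_le_add_of_nonneg (spDist_nonneg G x y) (spDist_nonneg G y z))
  eq_of_dist_eq_zero {a b} h := by
    induction a using Quotient.inductionOn with
    | h x =>
      induction b using Quotient.inductionOn with
      | h y => exact Quotient.sound ((spDist_eq_zero G).1 h)

instance (X : UMet) : IsUltrametricDist (SPobj G X) where
  dist_triangle_max a b c := by
    induction a using Quotient.inductionOn with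
    | h x =>
      induction b using Quotient.inductionOn with
      | h y =>
        induction c using Quotient.inductionOn with
        | h z => exact spDist_triangle G x y z

lemma dist_cls (x y : Fin n → X) : dist (cls x : SPobj G X) (cls y) = spDist G x y := rfl

/-- The functor `SP^n_G`. -/
def SP : UMet ⥤ UMet where
  obj X := ⟨SPobj G X⟩
  map {X Y} f := ⟨Quotient.map' (s₁ := orbit G X) (s₂ := orbit G Y) (fun x i => f.1 (x i)) (by
      rintro x y ⟨σ, hσ, rfl⟩
      exact ⟨σ, hσ, rfl⟩), by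
    intro a b
    induction a using Quotient.inductionOn with
    | h x =>
      induction b using Quotient.inductionOn with
      | h y =>
        show spDist G (fun i => f.1 (x i)) (fun i => f.1 (y i)) ≤ spDist G x y
        obtain ⟨σ, hσ, h⟩ := exists_spDist G x y
        rw [← h]
        refine (spDist_le G _ _ hσ).trans ?_
        exact (dist_pi_le_iff dist_nonneg).2 fun i =>
          (f.2 _ _).trans (dist_le_pi_dist x (y ∘ σ) i)⟩
  map_id X := by
    apply Subtype.ext
    funext a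
    induction a using Quotient.inductionOn with
    | h x => rfl
  map_comp f g := by
    apply Subtype.ext
    funext a
    induction a using Quotient.inductionOn with
    | h x => rfl

end SP

/-! ### The standard extension -/

lemma functor_ext {F F' : UMet ⥤ Kl} (h : ∀ X, (F.obj X).of = (F'.obj X).of)
    (h' : ∀ X Y (f : X ⟶ Y), F.map f ≍ F'.map f) : F = F' := by
  refine CategoryTheory.Functor.hext (fun X => ?_) h'
  have := h X
  cases hF : F.obj X
  cases hF' : F'.obj X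
  rw [hF, hF'] at this
  exact congrArg Kl.mk this

section product

variable {n : ℕ} (G : Subgroup (Equiv.Perm (Fin n)))

/-- The image in `SP^n_G(X)` of the product of the measures `μ i`, by its values. -/
lemma exists_prod (μ : Fin n → J X) : ∃ ν : J ⟨SPobj G X⟩, ∀ t,
    Lev ν t = {a | ∃ x : Fin n → X, (∀ i, x i ∈ Lev (μ i) t) ∧ cls x = a} := by
  choose k α p hα hμ using fun i => (μ i).exists_rep
  let ι : Type := ∀ i, Fin (k i)
  let a : ι → EReal := fun j => ⨅ i, α i (j i)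
  let q : ι → SPobj G X := fun j => cls fun i => p i (j i)
  have htop : ∃ j, a j = ⊤ := by
    choose j hj using hα
    exact ⟨j, by simp [a, hj]⟩
  have : Nonempty ι := ⟨htop.choose⟩
  -- the values are real numbers
  let F : C((⟨SPobj G X⟩ : UMet), ℝ) → EReal := fun φ => ⨆ j, min (a j) (φ (q j) : EReal)
  have hF : ∀ φ, F φ = ((F φ).toReal : EReal) := by
    intro φ
    obtain ⟨j, hj⟩ := exists_eq_ciSup_of_finite (f := fun j => min (a j) (φ (q j) : EReal))
    obtain ⟨j', hj'⟩ := htop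
    refine (EReal.coe_toReal ?_ ?_).symm
    · show (⨆ j, min (a j) (φ (q j) : EReal)) ≠ ⊤
      rw [← hj]
      exact ne_top_of_le_ne_top (EReal.coe_ne_top _) (min_le_right _ _)
    · refine ne_bot_of_le_ne_bot (EReal.coe_ne_bot (φ (q j'))) ?_
      refine le_trans ?_ (le_iSup (fun j => min (a j) (φ (q j) : EReal)) j')
      rw [hj']
      simp
  have hle := le_iff_of_rep (X := ⟨SPobj G X⟩) (F := fun φ => (F φ).toReal) htop
    fun φ => (hF φ).symm
  refine ⟨⟨fun φ => (F φ).toReal, exists_rep_of_finite a q htop hle⟩, fun t => ?_⟩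
  rw [lev_rep (x := q) htop fun φ => (hF φ).symm]
  ext b
  constructor
  · rintro ⟨j, h1, rfl⟩
    refine ⟨fun i => p i (j i), fun i => ?_, rfl⟩
    rw [lev_rep (hα i) (hμ i)]
    exact ⟨j i, h1.trans (iInf_le _ i), rfl⟩
  · rintro ⟨x, hx, rfl⟩
    have h1 : ∀ i, ∃ j, (t : EReal) ≤ α i j ∧ p i j = x i := by
      intro i
      have := hx i
      rw [lev_rep (hα i) (hμ i)] at this
      exact this
    choose j hj hj' using h1
    refine ⟨j, le_iInf hj, ?_⟩
    show cls _ = cls _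
    simp only [hj']

/-- The image in `SP^n_G(X)` of the product of the measures `μ i`. -/
def prod (μ : Fin n → J X) : J ⟨SPobj G X⟩ := (exists_prod G μ).choose

lemma lev_prod (μ : Fin n → J X) (t : ℝ) :
    Lev (prod G μ) t = {a | ∃ x : Fin n → X, (∀ i, x i ∈ Lev (μ i) t) ∧ cls x = a} :=
  (exists_prod G μ).choose_spec t

lemma prod_perm (μ : Fin n → J X) {σ : Equiv.Perm (Fin n)} (hσ : σ ∈ G) :
    prod G (μ ∘ σ) = prod G μ := by
  apply J_ext
  intro t
  rw [lev_prod, lev_prod]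
  ext a
  constructor
  · rintro ⟨x, hx, rfl⟩
    refine ⟨x ∘ ⇑σ⁻¹, fun i => ?_, ?_⟩
    · have := hx (σ⁻¹ i)
      simpa using this
    · exact Quotient.sound ⟨σ⁻¹, G.inv_mem hσ, rfl⟩
  · rintro ⟨x, hx, rfl⟩
    exact ⟨x ∘ σ, fun i => hx (σ i), Quotient.sound ⟨σ, hσ, rfl⟩⟩

/-- The standard extension on morphisms. -/
def extMap (f : X → J Y) : SPobj G X → J ⟨SPobj G Y⟩ :=
  Quotient.lift (fun x => prod G fun i => f (x i)) (by
    rintro x y ⟨σ, hσ, rfl⟩
    exact prod_perm G (fun i => f (y i)) hσ)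

lemma extMap_cls (f : X → J Y) (x : Fin n → X) :
    extMap G f (cls x) = prod G fun i => f (x i) := rfl

lemma extMap_nonexp {f : X → J Y} (hf : ∀ x x', dhat (f x) (f x') ≤ dist x x')
    (a a' : (⟨SPobj G X⟩ : UMet)) : dhat (extMap G f a) (extMap G f a') ≤ dist a a' := by
  revert a a'
  rw [nonexp_iff] at hf ⊢
  intro a a' r hr t b hb
  have hr0 : 0 < r := dist_nonneg.trans_lt hr
  induction a using Quotient.inductionOn with
  | h x =>
    induction a' using Quotient.inductionOn with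
    | h x' =>
      obtain ⟨σ, hσ, h⟩ := exists_spDist G x x'
      have hr' : dist x (x' ∘ σ) < r := by
        rw [h]
        exact hr
      have e : extMap G f (cls x') = prod G fun i => f (x' (σ i)) :=
        (prod_perm G (fun i => f (x' i)) hσ).symm
      change b ∈ Lev (extMap G f (cls x)) t at hb
      show ∃ y' ∈ Lev (extMap G f (cls x')) t, _
      rw [e, lev_prod]
      rw [extMap_cls, lev_prod] at hb
      obtain ⟨y, hy, rfl⟩ := hb
      have h1 : ∀ i, ∃ y' ∈ Lev (f (x' (σ i))) t, dist (y i) y' < r := fun i =>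
        hf (x i) (x' (σ i)) r ((dist_le_pi_dist x (x' ∘ σ) i).trans_lt hr') t (y i) (hy i)
      choose y' hy' hyy' using h1
      refine ⟨cls y', ⟨y', hy', rfl⟩, ?_⟩
      refine (spDist_le G y y' G.one_mem).trans_lt ?_
      exact (dist_pi_lt_iff hr0).2 hyy'

/-- The standard extension of `SP^n_G` to the Kleisli category. -/
def ext : Kl ⥤ Kl where
  obj X := ⟨⟨SPobj G X.of⟩⟩
  map f := ⟨extMap G f.1, extMap_nonexp G f.2⟩
  map_id X := by
    apply Subtype.ext
    funext a
    induction a using Quotient.inductionOn with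
    | h x =>
      show extMap G dirac (cls x) = dirac (cls x)
      apply J_ext
      intro t
      rw [extMap_cls, lev_prod, lev_dirac]
      ext a
      simp only [lev_dirac, mem_singleton_iff, mem_ofPred_eq]
      constructor
      · rintro ⟨y, hy, rfl⟩
        rw [funext hy]
      · rintro rfl
        exact ⟨x, fun _ => rfl, rfl⟩
  map_comp {X Y Z} f g := by
    apply Subtype.ext
    funext a
    induction a using Quotient.inductionOn with
    | h x =>
      show extMap G (fun x => bind (f.1 x) g.1 g.2) (cls x) =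
        bind (extMap G f.1 (cls x)) (extMap G g.1) (extMap_nonexp G g.2)
      apply J_ext
      intro t
      rw [extMap_cls, extMap_cls, lev_prod, lev_bind, lev_prod]
      ext c
      simp only [lev_bind, mem_ofPred_eq]
      constructor
      · rintro ⟨z, hz, rfl⟩
        choose y hy hz using hz
        refine ⟨cls y, ⟨y, hy, rfl⟩, ?_⟩
        rw [extMap_cls, lev_prod]
        exact ⟨z, hz, rfl⟩
      · rintro ⟨_, ⟨y, hy, rfl⟩, hc⟩
        rw [extMap_cls, lev_prod] at hc
        obtain ⟨z, hz, rfl⟩ := hc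
        exact ⟨z, fun i => ⟨y i, hy i, hz i⟩, rfl⟩

lemma ext_extends : Phi ⋙ ext G = SP G ⋙ Phi := by
  refine functor_ext (fun X => rfl) fun X Y f => heq_of_eq (Subtype.ext ?_)
  funext a
  induction a using Quotient.inductionOn with
  | h x =>
    show extMap G (fun x => dirac (f.1 x)) (cls x) = dirac (cls fun i => f.1 (x i))
    apply J_ext
    intro t
    rw [extMap_cls, lev_prod, lev_dirac]
    ext a
    simp only [lev_dirac, mem_singleton_iff, mem_ofPred_eq]
    constructor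
    · rintro ⟨y, hy, rfl⟩
      rw [funext hy]
    · rintro rfl
      exact ⟨_, fun _ => rfl, rfl⟩

end product

/-! ### The automorphisms `Θ_c` -/

/-- `θ_c(μ)(φ) = μ(φ - c) + c`. -/
def shift (c : ℝ) (μ : J X) : J X where
  toFun φ := μ.toFun (φ - ContinuousMap.const X c) + c
  exists_rep := by
    obtain ⟨k, α, x, ⟨i, hi⟩, hF⟩ := μ.exists_rep
    refine exists_rep_of_finite (fun i => α i + (c : EReal)) x ⟨i, by simp [hi]⟩ fun φ t => ?_
    rw [← sub_le_iff_le_add, le_iff_of_rep ⟨i, hi⟩ hF]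
    refine exists_congr fun i => and_congr ?_ ?_
    · rw [EReal.coe_sub]
      exact EReal.sub_le_iff_le_add (Or.inl (EReal.coe_ne_bot c)) (Or.inl (EReal.coe_ne_top c))
    · simp

lemma lev_shift (c : ℝ) (μ : J X) (t : ℝ) : Lev (shift c μ) t = Lev μ (t - c) := by
  refine lev_eq_of (lev_finite μ _) fun φ => ?_
  show t ≤ μ.toFun _ + c ↔ _
  rw [← sub_le_iff_le_add, le_iff]
  simp

lemma shift_nonexp (c : ℝ) {f : X → J Y} (hf : ∀ x x', dhat (f x) (f x') ≤ dist x x') (x x' : X) :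
    dhat (shift c (f x)) (shift c (f x')) ≤ dist x x' := by
  revert x x'
  rw [nonexp_iff] at hf ⊢
  intro x x' r hr t y hy
  rw [lev_shift] at hy ⊢
  exact hf x x' r hr _ y hy

/-- The automorphism `Θ_c` of the Kleisli category. -/
def Theta (c : ℝ) : Kl ⥤ Kl where
  obj X := X
  map f := ⟨fun x => shift c (f.1 x), shift_nonexp c f.2⟩
  map_id X := by
    apply Subtype.ext
    funext x
    apply J_ext
    intro t
    rw [lev_shift]
    show Lev (dirac x) _ = Lev (dirac x) _
    rw [lev_dirac, lev_dirac]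
  map_comp f g := by
    apply Subtype.ext
    funext x
    show shift c (bind (f.1 x) g.1 g.2) =
      bind (shift c (f.1 x)) (fun y => shift c (g.1 y)) (shift_nonexp c g.2)
    apply J_ext
    intro t
    rw [lev_shift, lev_bind, lev_bind, lev_shift]
    simp only [lev_shift]

lemma Theta_extends (c : ℝ) : Phi ⋙ Theta c = Phi := by
  refine functor_ext (fun X => rfl) fun X Y f => heq_of_eq (Subtype.ext ?_)
  funext x
  show shift c (dirac (f.1 x)) = dirac (f.1 x)
  apply J_ext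
  intro t
  rw [lev_shift, lev_dirac, lev_dirac]

/-! ### The extensions are different -/

/-- The space with one point. -/
def pt : UMet where
  carrier := Unit
  ultra := ⟨fun _ _ _ => by simp⟩

/-- The space with two points, `0` and `1`. -/
def two : UMet where
  carrier := ({0, 1} : Set ℝ)
  ultra := ⟨fun a b c => by
    obtain ⟨a, ha⟩ := a
    obtain ⟨b, hb⟩ := b
    obtain ⟨c, hc⟩ := c
    simp only [mem_insert_iff, mem_singleton_iff] at ha hb hc
    simp only [Subtype.dist_eq, Real.dist_eq]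
    rcases ha with rfl | rfl <;> rcases hb with rfl | rfl <;> rcases hc with rfl | rfl <;> simp⟩

/-- The points `0` and `1`. -/
def p0 : two := ⟨0, Or.inl rfl⟩

/-- The points `0` and `1`. -/
def p1 : two := ⟨1, Or.inr rfl⟩

lemma p0_ne_p1 : p0 ≠ p1 := by
  intro h
  have := congrArg Subtype.val h
  exact zero_ne_one this

lemma two_cases (x : two) : x = p0 ∨ x = p1 := by
  obtain ⟨x, hx | hx⟩ := x
  · exact Or.inl (Subtype.ext hx)
  · exact Or.inr (Subtype.ext hx)

/-- The measure `∞ ∧ δ_0 ∨ 0 ∧ δ_1`. -/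
lemma exists_mu : ∃ μ : J two, ∀ t, Lev μ t = {x | x = p0 ∨ (x = p1 ∧ t ≤ 0)} := by
  let F : C(two, ℝ) → ℝ := fun φ => max (φ p0) (min 0 (φ p1))
  have hF : ∀ (φ : C(two, ℝ)) (t : ℝ), t ≤ F φ ↔
      ∃ i : Fin 2, (t : EReal) ≤ (![⊤, 0] : Fin 2 → EReal) i ∧ t ≤ φ ((![p0, p1] : Fin 2 → two) i) := by
    intro φ t
    simp only [F, le_max_iff, le_min_iff]
    constructor
    · rintro (h | ⟨h, h'⟩)
      · exact ⟨0, by simp, h⟩
      · exact ⟨1, by simpa using h, h'⟩
    · rintro ⟨i, h, h'⟩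
      fin_cases i
      · exact Or.inl h'
      · exact Or.inr ⟨by simpa using h, h'⟩
  refine ⟨⟨F, exists_rep_of_finite _ _ ⟨0, rfl⟩ hF⟩, fun t => ?_⟩
  refine lev_eq_of (Set.toFinite {p0, p1} |>.subset ?_) fun φ => ?_
  · rintro x (h | ⟨h, -⟩)
    · exact Or.inl h
    · exact Or.inr h
  · show t ≤ F φ ↔ _
    simp only [F, le_max_iff, le_min_iff]
    constructor
    · rintro (h | ⟨h, h'⟩)
      · exact ⟨p0, Or.inl rfl, h⟩
      · exact ⟨p1, Or.inr ⟨rfl, h⟩, h'⟩
    · rintro ⟨x, (rfl | ⟨rfl, h⟩), h'⟩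
      · exact Or.inl h'
      · exact Or.inr ⟨h, h'⟩

/-- **There are many extensions.** For every `n ≥ 1` and every subgroup `G` of `S_n` there is a
family `F c`, `c ∈ ℝ`, of pairwise different extensions of `SP^n_G` to the Kleisli category of
the monad of max-min measures. -/
theorem result (n : ℕ) (hn : 1 ≤ n) (G : Subgroup (Equiv.Perm (Fin n))) :
    ∃ F : ℝ → (Kl ⥤ Kl), Function.Injective F ∧ ∀ c, Phi ⋙ F c = SP G ⋙ Phi := by
  refine ⟨fun c => ext G ⋙ Theta c, fun c c' h => ?_, fun c => ?_⟩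
  · obtain ⟨μ, hμ⟩ := exists_mu
    -- a morphism from the point
    let f : (⟨pt⟩ : Kl) ⟶ ⟨two⟩ := ⟨fun _ => μ, nonexp_iff.2 fun x x' r hr t y hy =>
      ⟨y, hy, by rw [dist_self]; exact dist_nonneg.trans_lt hr⟩⟩
    have h1 : (ext G ⋙ Theta c).map f = (ext G ⋙ Theta c').map f :=
      eq_of_heq (CategoryTheory.Functor.hcongr_hom h f)
    have h2 : shift c (prod G fun _ => μ) = shift c' (prod G fun _ => μ) :=
      congrFun (congrArg Subtype.val h1) (cls fun _ => ())
    -- the weight of the orbit of `(1, …, 1)` is zero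
    have h3 : ∀ s, (cls fun _ => p1 : SPobj G two) ∈ Lev (prod G fun _ => μ) s ↔ s ≤ 0 := by
      intro s
      rw [lev_prod]
      constructor
      · rintro ⟨x, hx, hxp⟩
        obtain ⟨σ, -, hσ⟩ := Quotient.exact hxp
        have hx0 := hx ⟨0, hn⟩
        rw [hμ, hσ] at hx0
        rcases hx0 with h | ⟨-, h⟩
        · exact absurd h.symm p0_ne_p1
        · exact h
      · intro hs
        refine ⟨fun _ => p1, fun i => ?_, rfl⟩
        rw [hμ]
        exact Or.inr ⟨rfl, hs⟩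
    have h4 : ∀ t, t - c ≤ 0 ↔ t - c' ≤ 0 := by
      intro t
      rw [← h3, ← h3, ← lev_shift, ← lev_shift, h2]
    have h5 := (h4 c).1 (by simp)
    have h6 := (h4 c').2 (by simp)
    linarith
  · show (Phi ⋙ ext G) ⋙ Theta c = _
    rw [ext_extends]
    show SP G ⋙ (Phi ⋙ Theta c) = _
    rw [Theta_extends]

end Pool.Agent.Results.MP_6cdbe4_gt.ManyExtensions
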